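import Pool.Agent.H1MS.Growth
import Pool.Agent.H1MS.Final
import Pool.Agent.H1MS.Standard

set_option autoImplicit false

/-!
Homogeneous antisymmetric `m`-schemes on `n` points without a matching have `m = o(log n)`.
-/

namespace Pool.Agent.Results.MP_91ba6b_lc.MatchingLittleO

open Pool.Agent.H1MS

/-- For every `ε > 0` there is `C` such that a homogeneous antisymmetric `m`-scheme on `n ≥ 2`
points without a matching has `m ≤ ε * log n + C`. -/
theorem result : ∀ ε : ℝ, 0 < ε → ∃ C : ℝ, ∀ (V : Type) [Finite V] (m : ℕ) (S : MScheme V m),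
    2 ≤ Nat.card V → S.Homogeneous → S.Antisymmetric → ¬ S.HasMatching →
      (m : ℝ) ≤ ε * Real.log (Nat.card V) + C := by
  intro ε hε
  exact levels_of_mainBound (fun D => main_of_growth growthStep D) ε hε

end Pool.Agent.Results.MP_91ba6b_lc.MatchingLittleO
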